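import Pool.Agent.H652.PV.KZ
import Pool.Agent.H216.PN.Alg

/-!
# Periods, `1 / π` and the integrals of reciprocals of polynomials over the whole space

`IsPeriod x` says that the real number `x` is a period, in the form of the frozen statement `S17403`. Let `D`
(`RecInt`) be the set of the differences

  `∫_{ℝ ^ n} dx / p (x) - ∫_{ℝ ^ n} dx / q (x)`,

where `n ≥ 1`, the polynomials `p`, `q` have integer coefficients, `p ≥ 1`, `q ≥ 1` on `ℝ ^ n`, and both integrals
converge. So `D` is contained in the set `W` of the integrals of rational functions over whole spaces.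

helper216 has proved (WholeSpaceIntegrals) that `W` is `π` times the set `𝒫` of the real periods. Here the
numerators are removed: `π ^ 5 𝒫 ⊆ D ⊆ W = π 𝒫`. Hence the following conditions are equivalent:

* `1 / π` is a period;
* `1` is in `D`, that is, `∫_{ℝ ^ n} dx / p (x) = 1 + ∫_{ℝ ^ n} dx / q (x)` for some `n ≥ 1` and some polynomials `p`, `q`
  with integer coefficients, `p ≥ 1` and `q ≥ 1`;
* some nonzero algebraic number is in `D`;
* `D` is the set of all real periods.

In other words, `1 / π` is not a period if and only if every nonzero difference of two convergent integrals of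
reciprocals of such polynomials over the whole space is transcendental; and if `π ^ 5 e` (or `π ^ 5 γ`) is not such
a difference, then `e` (or `γ`) is not a period.

Proof of `π ^ 5 𝒫 ⊆ D`. A period is a difference of the volumes of two regions `F > 0`, `G > 0`. For `A ≠ 0` the
integral over `(a, b) ∈ ℝ ^ 2`, `s = a ^ 2 + b ^ 2`, of

     `1 / (1 + (s - A) ^ 2) + A / (1 + A ^ 2 (1 + s) ^ 2)`

is `π ^ 2` if `A > 0`, and it is ZERO if `A < 0`. With `A = F (x) ∏ (1 + x_i ^ 2) ^ (2 d)`, `d > deg F`, this is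
integrable over `ℝ ^ (n + 2)`, since `∫ |F| ^ (- 1 / (2 d)) ∏ 1 / (1 + x_i ^ 2) dx` is finite. So `π ^ 2` times a period
is an integral of `P / Q` with `Q ≥ 1` over the whole space. Finally, with `s = a ^ 2 + b ^ 2 + c ^ 2 + d ^ 2`,

     `∫_{ℝ ^ 4} 1 / (1 + (s - P) ^ 2) ^ 2 = π ^ 2 ∫_0^∞ s ds / (1 + (s - P) ^ 2) ^ 2
        = π ^ 2 (1 / 2 + (π / 4) P + P arctan (P) / 2)`,

and the difference of the values for `P` and `- P` is `(π ^ 3 / 2) P`; so `(π ^ 3 / 2) ∫ P / Q` is the difference of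
the integrals over `ℝ ^ (n + 4)` of `1 / (Q W (1 + (s - P W) ^ 2) ^ 2)` and of `1 / (Q W (1 + (s + P W) ^ 2) ^ 2)`,
where `W = ∏ (1 + x_i ^ 2)` makes both integrals finite.
-/

set_option autoImplicit false
set_option synthInstance.maxSize 2000

namespace Pool.Agent.Results.MP_725b61_nt.ReciprocalIntegrals

open MeasureTheory Pool.Agent.H652.PV.KZ

/-- The real number `x` is a period in the sense of Kontsevich and Zagier, in the form of the frozen
statement. -/
def IsPeriod (x : ℝ) : Prop :=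
  ∃ (k : ℕ) (n m : Fin k → ℕ)
    (p : ∀ j : Fin k, Fin (m j) → MvPolynomial (Fin (n j)) ℚ)
    (P Q : ∀ j : Fin k, MvPolynomial (Fin (n j)) ℚ),
    (∀ j : Fin k,
      MeasureTheory.IntegrableOn
        (fun y : Fin (n j) → ℝ => (MvPolynomial.aeval y (P j) / MvPolynomial.aeval y (Q j) : ℝ))
        {y : Fin (n j) → ℝ | ∀ i, 0 ≤ (MvPolynomial.aeval y (p j i) : ℝ)}) ∧
    x = ∑ j : Fin k,
      ∫ y in {y : Fin (n j) → ℝ | ∀ i, 0 ≤ (MvPolynomial.aeval y (p j i) : ℝ)},
        (MvPolynomial.aeval y (P j) / MvPolynomial.aeval y (Q j) : ℝ)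

theorem isPeriod_iff (x : ℝ) : IsPeriod x ↔ x ∈ AddSubgroup.closure Q54.KZ.vols := by
  constructor
  · rintro ⟨k, n, m, p, P, Q, h1, rfl⟩
    exact AddSubgroup.sum_mem _ fun j _ => Q54.KZ.IsPer.mem ⟨n j, m j, p j, P j, Q j, h1 j, rfl⟩
  · intro h5
    obtain ⟨l, h6, h7⟩ := (Q54.KZ.mem_iff _).1 h5
    rw [← h7]
    choose n' k' p' P' Q' h8 h9 using fun j : Fin l.length => h6 (l.get j) (List.get_mem l j)
    refine ⟨l.length, n', k', p', P', Q', h8, ?_⟩
    rw [← Finset.sum_congr rfl fun j _ => h9 j]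
    exact (Fin.sum_univ_getElem l).symm

theorem rec_of_period {x : ℝ} (h : IsPeriod x) : RecInt (Real.pi ^ 5 * x) :=
  rec_of_closure (Q54.KZ.vols_le ((isPeriod_iff x).1 h))

theorem whole_of_rec {x : ℝ} (h : RecInt x) : Pool.Agent.H216.PN.Whole x := by
  obtain ⟨n, P, Q, h1, h2, h3⟩ := rat_of_rec' h
  exact ⟨n, P, Q, fun z => lt_of_lt_of_le one_pos (h1 z), h2, h3.symm⟩

theorem period_of_rec {x : ℝ} (h : RecInt x) : IsPeriod (x / Real.pi) := by
  rw [isPeriod_iff, ← Pool.Agent.H216.PN.whole_iff, mul_div_cancel₀ x Real.pi_ne_zero]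
  exact whole_of_rec h

theorem mul_mem {x y : ℝ} (hx : IsPeriod x) (hy : IsPeriod y) : IsPeriod (x * y) := by
  rw [isPeriod_iff] at *
  exact Pool.Agent.H216.PN.mul_mem hx hy

theorem alg_mem {x : ℝ} (h : IsAlgebraic ℚ x) : IsPeriod x := by
  rw [isPeriod_iff]
  exact Pool.Agent.H216.PN.alg_mem h

theorem pow_mem {x : ℝ} (h : IsPeriod x) (k : ℕ) : IsPeriod (x ^ k) := by
  induction k with
  | zero =>
    rw [pow_zero]
    exact alg_mem isAlgebraic_one
  | succ k ih =>
    rw [pow_succ]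
    exact mul_mem ih h

theorem period_of_rec' {v : ℝ} (h : RecInt v) : IsPeriod v := by
  obtain ⟨n, P, Q, -, h2, rfl⟩ := rat_of_rec' h
  rw [isPeriod_iff]
  have h3 := Q54.KZ.integral_mem ([] : List (MvPolynomial (Fin (n + 1)) ℚ))
    (MvPolynomial.map (Int.castRingHom ℚ) P) (MvPolynomial.map (Int.castRingHom ℚ) Q)
  have h5 : {x : Fin (n + 1) → ℝ | ∀ p ∈ ([] : List (MvPolynomial (Fin (n + 1)) ℚ)),
      0 < (MvPolynomial.aeval x p : ℝ)} = Set.univ := by
    ext z
    simp
  rw [h5] at h3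
  simp only [aeval_map, integrableOn_univ, setIntegral_univ] at h3
  exact h3 h2

/-- **Theorem.** -/
theorem result :
    (∀ x : ℝ, IsPeriod x → RecInt (Real.pi ^ 5 * x)) ∧
    (∀ x : ℝ, RecInt x → IsPeriod (x / Real.pi)) ∧
    (IsPeriod (1 / Real.pi) ↔ RecInt 1) ∧
    (IsPeriod (1 / Real.pi) ↔ ∃ v : ℝ, v ≠ 0 ∧ IsAlgebraic ℚ v ∧ RecInt v) ∧
    (IsPeriod (1 / Real.pi) ↔ ∀ v : ℝ, RecInt v ↔ IsPeriod v) := by
  have a : IsPeriod (1 / Real.pi) → ∀ v : ℝ, IsPeriod v → RecInt v := by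
    intro h v hv
    have h1 := rec_of_period (mul_mem (pow_mem h 5) hv)
    have h2 : Real.pi ^ 5 * ((1 / Real.pi) ^ 5 * v) = v := by
      have := Real.pi_ne_zero
      field_simp
    rwa [h2] at h1
  have one : IsPeriod 1 := alg_mem isAlgebraic_one
  refine ⟨fun x => rec_of_period, fun x => period_of_rec, ⟨fun h => a h 1 one, period_of_rec⟩,
    ⟨fun h => ⟨1, one_ne_zero, isAlgebraic_one, a h 1 one⟩, ?_⟩, ?_, ?_⟩
  · rintro ⟨v, hv, hva, hr⟩
    have h1 := mul_mem (period_of_rec hr) (alg_mem hva.inv)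
    have h2 : v / Real.pi * v⁻¹ = 1 / Real.pi := by
      field_simp
    rwa [h2] at h1
  · intro h v
    exact ⟨period_of_rec', a h v⟩
  · intro h
    exact period_of_rec ((h 1).2 one)

end Pool.Agent.Results.MP_725b61_nt.ReciprocalIntegrals
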