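import Pool.Agent.H608.Ge.PiEG
import Pool.Agent.H608.Ge.Per
import Pool.Agent.H608.Ge.Omit
import Pool.Agent.H608.Ge.Jn
import Mathlib

/-!
# `e`, `1 / π` and Euler's constant with very few omitted terms are not periods

Leibniz's series is `π = ∑ (4 / (4 k + 1) - 4 / (4 k + 3))`, `k ≥ 0`; `e` is the limit of `b_k = (1 + 1 / k) ^ k`, so
that `e = 2 ∏ b_(k + 1) / b_k`; and `γ = ∑ (1 / k - log (1 + 1 / k))`. For a set `E` of positive integers let `π_E`,
`e_E`, `γ_E` be the series and the product without the terms and factors with `k ∈ E`. There are sets `E` with at most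
`C log log log K` elements up to `K` such that `1 / π_E, e_E, γ_E` are algebraically independent over the ring generated
by all real periods (and any further countable ring); in particular none of the three numbers is a period. Moreover,
the values of given analytic functions at `(π_E, e_E, γ_E)` are normal in every integer base, even jointly.
-/

set_option autoImplicit false

namespace Pool.Agent.Results.MP_725b61_nt.ThreeNonPeriods

open Finset Filter Topology Metric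
open Pool.Agent.H608.Sp Pool.Agent.H608.Ge

/-- the digit of `x` in base `b` at position `i` after the point -/
noncomputable def digit (b : ℕ) (x : ℝ) (i : ℕ) : ℤ := ⌊x * (b : ℝ) ^ i⌋ % (b : ℤ)

open Classical in
/-- the tuple `x` is jointly normal in base `b`: every digit matrix with `n` rows and `m` columns
occurs along the positions with limiting frequency `b ^ (-(m * n))` -/
def JointlyNormal (b : ℕ) {n : ℕ} (x : Fin n → ℝ) : Prop :=
  ∀ m : ℕ, 1 ≤ m → ∀ D : Fin n → Fin m → Fin b,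
    Tendsto (fun N : ℕ => (((Icc 1 N).filter fun i : ℕ =>
      ∀ (j : Fin n) (t : Fin m), digit b (x j) (i + (t : ℕ)) = ((D j t : ℕ) : ℤ)).card : ℝ) / (N : ℝ))
      atTop (𝓝 (1 / (b : ℝ) ^ (m * n)))

/-- `A` has at least `H exp (- (log H) ^ (2 / 5))` elements in `[H, 2 H)`, for all large `H` -/
def NotTooSparse (A : Set ℕ) : Prop :=
  ∀ᶠ H : ℕ in atTop, H * Real.exp (-(Real.log H) ^ (2 / 5 : ℝ)) ≤
    (({k : ℕ | k ∈ A ∧ H ≤ k ∧ k < 2 * H}.ncard : ℕ) : ℝ)

/-- real periods (of Kontsevich and Zagier), as in the frozen statement of the problem: finite sums of absolutely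
convergent integrals of rational functions with rational coefficients over sets which are described by finitely many
polynomial inequalities with rational coefficients -/
def IsPeriod (x : ℝ) : Prop :=
  ∃ (k : ℕ) (n m : Fin k → ℕ)
    (p : ∀ j : Fin k, Fin (m j) → MvPolynomial (Fin (n j)) ℚ)
    (P Q : ∀ j : Fin k, MvPolynomial (Fin (n j)) ℚ),
    (∀ j : Fin k,
      MeasureTheory.IntegrableOn
        (fun y : Fin (n j) → ℝ => MvPolynomial.aeval y (P j) / MvPolynomial.aeval y (Q j))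
        {y : Fin (n j) → ℝ | ∀ i, 0 ≤ MvPolynomial.aeval y (p j i)}) ∧
    x = ∑ j : Fin k,
      ∫ y in {y : Fin (n j) → ℝ | ∀ i, 0 ≤ MvPolynomial.aeval y (p j i)},
        MvPolynomial.aeval y (P j) / MvPolynomial.aeval y (Q j)

open Classical in
/-- Leibniz's series for `π` without the pairs of terms with numbers in `E` -/
noncomputable def piE (E : Set ℕ) : ℝ :=
  ∑' k : ℕ, if k ∈ E then 0 else 4 / (4 * (k : ℝ) + 1) - 4 / (4 * (k : ℝ) + 3)

/-- the sequence with limit `e` -/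
noncomputable def bern (k : ℕ) : ℝ := (1 + 1 / (k : ℝ)) ^ k

open Classical in
/-- the product for `e` without the factors in `E` -/
noncomputable def eE (E : Set ℕ) : ℝ := 2 * ∏' n : ℕ, if n + 1 ∈ E then 1 else bern (n + 2) / bern (n + 1)

open Classical in
/-- the series for Euler's constant without the terms in `E` -/
noncomputable def gammaE (E : Set ℕ) : ℝ :=
  ∑' n : ℕ, if n + 1 ∈ E then 0 else 1 / ((n : ℝ) + 1) - Real.log (1 + 1 / ((n : ℝ) + 1))

/-- the three numbers without omissions -/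
noncomputable def p₀ : Fin 3 → ℝ := ![Real.pi, Real.exp 1, Real.eulerMascheroniConstant]

lemma jn_of_nt (b : ℕ) {n : ℕ} (x : Fin n → ℝ) (h : Pool.Agent.W206.ND.NT b x) :
    JointlyNormal b x := by
  intro m hm D
  have h1 := h m hm D
  refine h1.congr fun N => ?_
  congr 2

lemma piE_empty : piE ∅ = Real.pi := by
  unfold piE
  rw [← hasSum_up2_zero.tsum_eq]
  apply tsum_congr
  intro k
  rw [if_neg (Set.notMem_empty _)]
  rfl

open Classical in
lemma piE_eq {E : Set ℕ} (h0 : 0 ∉ E) : piE E = 8 / 3 + ∑' n : ℕ, if n + 1 ∈ E then 0 else up2 (n + 1) := by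
  have h1 : Summable fun k : ℕ => if k ∈ E then 0 else 4 / (4 * (k : ℝ) + 1) - 4 / (4 * (k : ℝ) + 3) := by
    refine (hasSum_up2_zero.summable.indicator {k | k ∉ E}).congr fun k => ?_
    simp only [Set.indicator, Set.mem_ofPred_eq]
    split_ifs <;> rfl
  unfold piE
  rw [h1.tsum_eq_zero_add, if_neg h0]
  congr 1
  · norm_num

lemma bern_pos (k : ℕ) : 0 < bern k := by
  unfold bern
  positivity

lemma log_bern (n : ℕ) : Real.log (bern (n + 2) / bern (n + 1)) = ue (n + 1) := by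
  rw [Real.log_div (bern_pos _).ne' (bern_pos _).ne']
  unfold bern ue
  rw [Real.log_pow, Real.log_pow]
  push_cast
  have e1 : (n : ℝ) + 1 + 1 = n + 2 := by ring
  rw [e1]

open Classical in
lemma eE_eq (E : Set ℕ) : eE E = 2 * Real.exp (∑' n : ℕ, if n + 1 ∈ E then 0 else ue (n + 1)) := by
  have h1 : Summable fun n : ℕ => if n + 1 ∈ E then 0 else ue (n + 1) := by
    refine (hasSum_ue.summable.indicator {n | n + 1 ∉ E}).congr fun n => ?_
    simp only [Set.indicator, Set.mem_ofPred_eq]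
    split_ifs <;> rfl
  have h2 : ∀ n : ℕ, Real.log (if n + 1 ∈ E then 1 else bern (n + 2) / bern (n + 1)) =
      if n + 1 ∈ E then 0 else ue (n + 1) := by
    intro n
    split_ifs
    · exact Real.log_one
    · exact log_bern n
  unfold eE
  rw [← Real.rexp_tsum_eq_tprod (f := fun n : ℕ => if n + 1 ∈ E then 1 else bern (n + 2) / bern (n + 1))]
  · simp only [h2]
  · intro n
    split_ifs
    · exact one_pos
    · exact div_pos (bern_pos _) (bern_pos _)
  · simp only [h2]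
    exact h1

lemma eE_empty : eE ∅ = Real.exp 1 := by
  rw [eE_eq]
  simp only [Set.mem_empty_iff_false, if_false]
  rw [hasSum_ue.tsum_eq, Real.exp_sub, Real.exp_log (by norm_num)]
  ring

open Classical in
lemma gammaE_eq (E : Set ℕ) : gammaE E = ∑' n : ℕ, if n + 1 ∈ E then 0 else tg (n + 1) := by
  unfold gammaE tg
  apply tsum_congr
  intro n
  push_cast
  rfl

lemma gammaE_empty : gammaE ∅ = Real.eulerMascheroniConstant := by
  rw [gammaE_eq]
  simp only [Set.mem_empty_iff_false, if_false]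
  exact hasSum_tg.tsum_eq

/-- the three numbers as functions of the three sums -/
noncomputable def Φ (w : Fin 3 → ℂ) : Fin 3 → ℂ := ![8 / 3 + w 0, 2 * Complex.exp (w 1), w 2]

/-- the inverse -/
noncomputable def Ψ (v : Fin 3 → ℂ) : Fin 3 → ℂ := ![v 0 - 8 / 3, Complex.log (v 1 / 2), v 2]

/-- inversion of the first number -/
noncomputable def J (v : Fin 3 → ℂ) : Fin 3 → ℂ := ![(v 0)⁻¹, v 1, v 2]

lemma proj_an (i : Fin 3) (s : Set (Fin 3 → ℂ)) : AnalyticOnNhd ℂ (fun w : Fin 3 → ℂ => w i) s :=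
  (ContinuousLinearMap.proj (R := ℂ) (φ := fun _ : Fin 3 => ℂ) i).analyticOnNhd _

lemma Φ_an (s : Set (Fin 3 → ℂ)) : AnalyticOnNhd ℂ Φ s := by
  apply AnalyticOnNhd.pi
  intro i
  fin_cases i
  · exact analyticOnNhd_const.add (proj_an 0 s)
  · exact analyticOnNhd_const.mul (proj_an 1 s).cexp
  · exact proj_an 2 s

lemma J_an {s : Set (Fin 3 → ℂ)} (hs : ∀ v ∈ s, v 0 ≠ 0) : AnalyticOnNhd ℂ J s := by
  apply AnalyticOnNhd.pi
  intro i
  fin_cases i
  · exact (proj_an 0 s).inv hs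
  · exact proj_an 1 s
  · exact proj_an 2 s

/-- the point of the three sums -/
noncomputable def x₀ : Fin 3 → ℝ := fun j => (serPEG j).x

lemma Φ_rp (a : Fin 3 → ℝ) : Φ (rp a) = rp ![8 / 3 + a 0, 2 * Real.exp (a 1), a 2] := by
  funext i
  fin_cases i
  · show (8 / 3 : ℂ) + ((a 0 : ℝ) : ℂ) = ((8 / 3 + a 0 : ℝ) : ℂ)
    push_cast
    rfl
  · show 2 * Complex.exp ((a 1 : ℝ) : ℂ) = ((2 * Real.exp (a 1) : ℝ) : ℂ)
    push_cast
    rfl
  · rfl

lemma Φ_x : Φ (rp x₀) = rp p₀ := by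
  rw [Φ_rp]
  congr 1
  funext i
  fin_cases i
  · show 8 / 3 + (Real.pi - 8 / 3) = Real.pi
    ring
  · show 2 * Real.exp (1 - Real.log 2) = Real.exp 1
    rw [Real.exp_sub, Real.exp_log (by norm_num)]
    ring
  · rfl

lemma Ψ_p : Ψ (rp p₀) = rp x₀ := by
  funext i
  fin_cases i
  · show ((Real.pi : ℝ) : ℂ) - 8 / 3 = ((Real.pi - 8 / 3 : ℝ) : ℂ)
    push_cast
    rfl
  · show Complex.log (((Real.exp 1 : ℝ) : ℂ) / 2) = ((1 - Real.log 2 : ℝ) : ℂ)
    have h1 : ((Real.exp 1 : ℝ) : ℂ) / 2 = ((Real.exp 1 / 2 : ℝ) : ℂ) := by push_cast; rfl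
    rw [h1, ← Complex.ofReal_log (by positivity), Real.log_div (Real.exp_pos 1).ne' (by norm_num), Real.log_exp]
  · rfl

lemma Ψ_cont : ContinuousAt Ψ (rp p₀) := by
  have h1 : ((Real.exp 1 : ℝ) : ℂ) / 2 ∈ Complex.slitPlane := by
    left
    have h2 : ((Real.exp 1 : ℝ) : ℂ) / 2 = ((Real.exp 1 / 2 : ℝ) : ℂ) := by push_cast; rfl
    rw [h2, Complex.ofReal_re]
    positivity
  rw [continuousAt_pi]
  intro i
  fin_cases i
  · exact ((continuous_apply 0).continuousAt).sub continuousAt_const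
  · exact ContinuousAt.clog (((continuous_apply 1).continuousAt).div_const _) h1
  · exact (continuous_apply 2).continuousAt

lemma ΦΨ : ∀ᶠ v in 𝓝 (rp p₀), Φ (Ψ v) = v := by
  have h1 : ∀ᶠ v in 𝓝 (rp p₀), v 1 ≠ 0 := by
    apply ((continuous_apply 1).continuousAt (x := rp p₀)).eventually_ne
    show ((Real.exp 1 : ℝ) : ℂ) ≠ 0
    exact_mod_cast (Real.exp_pos 1).ne'
  filter_upwards [h1] with v hv
  funext i
  fin_cases i
  · show (8 / 3 : ℂ) + (v 0 - 8 / 3) = v 0
    ring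
  · show 2 * Complex.exp (Complex.log (v 1 / 2)) = v 1
    rw [Complex.exp_log (div_ne_zero hv two_ne_zero)]
    ring
  · rfl

/-- a function which is constant after composition with `Φ` is constant near the point -/
lemma const_near {f : (Fin 3 → ℂ) → ℂ} {ρ : ℝ} (hρ : 0 < ρ) {c : ℂ}
    (h : ∀ w ∈ ball (rp x₀) ρ, f (Φ w) = c) : ∀ᶠ v in 𝓝 (rp p₀), f v = c := by
  have h1 : ∀ᶠ v in 𝓝 (rp p₀), Ψ v ∈ ball (rp x₀) ρ := by
    apply Ψ_cont.eventually_mem
    rw [Ψ_p]
    exact ball_mem_nhds _ hρ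
  filter_upwards [h1, ΦΨ] with v hv1 hv2
  have h2 := h _ hv1
  rwa [hv2] at h2

lemma J_J {v : Fin 3 → ℂ} : J (J v) = v := by
  funext i
  fin_cases i
  · exact inv_inv _
  · rfl
  · rfl

lemma J_p : J (rp p₀) = rp ![Real.pi⁻¹, Real.exp 1, Real.eulerMascheroniConstant] := by
  funext i
  fin_cases i
  · show (((Real.pi : ℝ) : ℂ))⁻¹ = ((Real.pi⁻¹ : ℝ) : ℂ)
    push_cast
    rfl
  · rfl
  · rfl

lemma J_rp (a : Fin 3 → ℝ) : J (rp a) = rp ![(a 0)⁻¹, a 1, a 2] := by
  funext i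
  fin_cases i
  · show (((a 0 : ℝ) : ℂ))⁻¹ = (((a 0)⁻¹ : ℝ) : ℂ)
    push_cast
    rfl
  · rfl
  · rfl

lemma pol_const (R : Subring ℝ) (P : MvPolynomial (Fin 3) R) {c : ℂ}
    (h : ∀ᶠ v in 𝓝 (rp p₀), polN R P (J v) = c) : ∃ c, P = MvPolynomial.C c := by
  have hpi : ((Real.pi⁻¹ : ℝ) : ℂ) ≠ 0 := by
    exact_mod_cast (inv_pos.2 Real.pi_pos).ne'
  have hJ : ContinuousAt J (J (rp p₀)) := by
    rw [continuousAt_pi]
    intro i
    fin_cases i
    · apply ContinuousAt.inv₀ ((continuous_apply 0).continuousAt)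
      rw [J_p]
      exact hpi
    · exact (continuous_apply 1).continuousAt
    · exact (continuous_apply 2).continuousAt
  have h1 : Tendsto J (𝓝 (J (rp p₀))) (𝓝 (rp p₀)) := by
    have h2 := hJ.tendsto
    rwa [J_J] at h2
  have h3 := h1.eventually h
  obtain ⟨δ, hδ, hball⟩ := Metric.eventually_nhds_iff_ball.1 h3
  rw [J_p] at hball
  apply polN_const R P hδ
  refine ⟨c, fun w hw => ?_⟩
  have h4 := hball w hw
  rwa [J_J] at h4

open Classical in
theorem result :
    -- without omissions the numbers are `π`, `e`, `γ`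
    (piE ∅ = Real.pi ∧ eE ∅ = Real.exp 1 ∧ gammaE ∅ = Real.eulerMascheroniConstant) ∧
    ∃ C : ℝ, 0 < C ∧ ∀ A : Set ℕ, NotTooSparse A → ∀ (M : ℕ) (r : ℝ), 0 < r → ∀ R : Subring ℝ, Countable R →
      ∀ 𝓕 : Set ((Fin 3 → ℂ) → ℂ), 𝓕.Countable →
      (∀ f ∈ 𝓕, AnalyticOnNhd ℂ f (ball (fun j => (p₀ j : ℂ)) r)) →
      (∀ f ∈ 𝓕, ∀ a : Fin 3 → ℝ, (∀ j, |a j - p₀ j| < r) → (f fun j => (a j : ℂ)).im = 0) →
      ∃ E : Set ℕ, E ⊆ A ∧ (∀ m ∈ E, 1 ≤ m ∧ M ≤ m) ∧
        (∀ K : ℕ, 16 ≤ K → (({m : ℕ | m ∈ E ∧ m ≤ K}.ncard : ℕ) : ℝ) ≤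
          C * Real.log (Real.log (Real.log K))) ∧
        |piE E - Real.pi| < r ∧ |eE E - Real.exp 1| < r ∧ |gammaE E - Real.eulerMascheroniConstant| < r ∧
        -- none of the numbers is a period
        (¬ IsPeriod (eE E) ∧ ¬ IsPeriod (1 / piE E) ∧ ¬ IsPeriod (gammaE E)) ∧
        -- algebraic independence over the ring generated by all periods and `R`
        AlgebraicIndependent (Subring.closure ({x : ℝ | IsPeriod x} ∪ (R : Set ℝ))) ![1 / piE E, eE E, gammaE E] ∧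
        -- analytic functions
        ∀ (n : ℕ) (f : Fin n → (Fin 3 → ℂ) → ℂ), (∀ j, f j ∈ 𝓕) →
          (∀ v : Fin n → ℤ, v ≠ 0 →
            ¬ ∃ c : ℂ, ∀ w ∈ ball (fun j => (p₀ j : ℂ)) r, ∑ j, (v j : ℂ) * f j w = c) →
          ∀ b : ℕ, 2 ≤ b →
            JointlyNormal b fun j => (f j fun i => ((![piE E, eE E, gammaE E] i : ℝ) : ℂ)).re := by
  refine ⟨⟨piE_empty, eE_empty, gammaE_empty⟩, ?_⟩
  obtain ⟨C, hC, hmain⟩ := linOne
  refine ⟨C, hC, fun A hA M r hr R hR 𝓕 hF hFA hFR => ?_⟩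
  -- the ring
  obtain ⟨R', hR'⟩ : ∃ R' : Subring ℝ, R' = Subring.closure ({x : ℝ | IsPeriod x} ∪ (R : Set ℝ)) := ⟨_, rfl⟩
  have hR'c : Countable R' := by
    rw [hR']
    apply countable_closure
    exact countable_per.union (Set.countable_coe_iff.1 hR)
  have := countable_mvN (n := 3) R'
  -- the radii
  have hpi3 := Real.pi_gt_three
  obtain ⟨r', hr'⟩ : ∃ r', r' = min r 1 := ⟨_, rfl⟩
  have hr0 : 0 < r' := by rw [hr']; exact lt_min hr one_pos
  have hr1 : r' ≤ 1 := by rw [hr']; exact min_le_right _ _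
  have hrr : r' ≤ r := by rw [hr']; exact min_le_left _ _
  obtain ⟨ρ, hρ, hρr⟩ : ∃ ρ : ℝ, 0 < ρ ∧ ∀ w ∈ ball (rp x₀) ρ, Φ w ∈ ball (rp p₀) r' := by
    have h1 : ContinuousAt Φ (rp x₀) := (Φ_an Set.univ (rp x₀) (Set.mem_univ _)).continuousAt
    have h2 : ∀ᶠ w in 𝓝 (rp x₀), Φ w ∈ ball (rp p₀) r' := by
      apply h1.eventually_mem
      rw [Φ_x]
      exact ball_mem_nhds _ hr0
    exact Metric.eventually_nhds_iff_ball.1 h2
  have hne : ∀ v ∈ ball (rp p₀) r', v 0 ≠ 0 := by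
    intro v hv h0
    have h1 := (mem_ball_n hr0).1 hv 0
    rw [h0, mem_ball_iff_norm] at h1
    have h2 : ‖(0 : ℂ) - rp p₀ 0‖ = Real.pi := by
      show ‖(0 : ℂ) - ((Real.pi : ℝ) : ℂ)‖ = Real.pi
      rw [zero_sub, norm_neg, Complex.norm_real, Real.norm_of_nonneg Real.pi_pos.le]
    rw [h2] at h1
    linarith
  have hrpp : (fun j => (p₀ j : ℂ)) = rp p₀ := rfl
  rw [hrpp] at hFA
  obtain ⟨E, z, _, hEA, hEK, hl, hz, _, hfreq, hNT⟩ := hmain 3 serPEG (by norm_num) linInd_PEG ρ hρ A hA M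
    ((fun f w => f (Φ w)) '' 𝓕 ∪ Set.range fun (P : MvPolynomial (Fin 3) R') w => polN R' P (J (Φ w)))
    ((hF.image _).union (Set.countable_range _)) (by
      rintro _ (⟨f, hf, rfl⟩ | ⟨P, rfl⟩)
      · exact (hFA f hf).comp (Φ_an _) fun w hw => ball_subset_ball hrr (hρr w hw)
      · exact (polN_analytic R' P Set.univ).comp ((J_an hne).comp (Φ_an _) hρr) fun _ _ => Set.mem_univ _) (by
      rintro _ (⟨f, hf, rfl⟩ | ⟨P, rfl⟩) a ha
      · simp only
        rw [Φ_rp]
        apply hFR f hf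
        have h1 := hρr (rp a) ((mem_ball_n hρ).2 fun j => by
          rw [mem_ball_iff_norm]
          show ‖((a j : ℝ) : ℂ) - ((x₀ j : ℝ) : ℂ)‖ < ρ
          rw [← Complex.ofReal_sub, Complex.norm_real]
          exact ha j)
        rw [Φ_rp, mem_ball_n hr0] at h1
        intro j
        have h2 := h1 j
        rw [mem_ball_iff_norm] at h2
        have h3 : ‖((![8 / 3 + a 0, 2 * Real.exp (a 1), a 2] j : ℝ) : ℂ) - ((p₀ j : ℝ) : ℂ)‖ < r' := h2
        rw [← Complex.ofReal_sub, Complex.norm_real] at h3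
        exact h3.trans_le hrr
      · simp only
        rw [Φ_rp, J_rp, polN_real, Complex.ofReal_im]) R' hR'c
  have h0E : 0 ∉ E := fun h => by
    have := (hEA 0 h).2.2
    omega
  have e0 : z 0 = ∑' n : ℕ, if n + 1 ∈ E then 0 else up2 (n + 1) :=
    tendsto_nhds_unique (hl 0) (tendsto_omit hasSum_up2 h0E)
  have e1 : z 1 = ∑' n : ℕ, if n + 1 ∈ E then 0 else ue (n + 1) :=
    tendsto_nhds_unique (hl 1) (tendsto_omit hasSum_ue h0E)
  have e2 : z 2 = ∑' n : ℕ, if n + 1 ∈ E then 0 else tg (n + 1) :=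
    tendsto_nhds_unique (hl 2) (tendsto_omit hasSum_tg h0E)
  have e3 : piE E = 8 / 3 + z 0 := by rw [piE_eq h0E, e0]
  have e4 : eE E = 2 * Real.exp (z 1) := by rw [eE_eq, e1]
  have e5 : gammaE E = z 2 := by rw [gammaE_eq, e2]
  have hvec : ![8 / 3 + z 0, 2 * Real.exp (z 1), z 2] = ![piE E, eE E, gammaE E] := by
    rw [e3, e4, e5]
  have hclose : ∀ j, |![piE E, eE E, gammaE E] j - p₀ j| < r' := by
    have h1 := hρr (rp z) ((mem_ball_n hρ).2 fun j => by
      rw [mem_ball_iff_norm]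
      show ‖((z j : ℝ) : ℂ) - ((x₀ j : ℝ) : ℂ)‖ < ρ
      rw [← Complex.ofReal_sub, Complex.norm_real]
      exact hz j)
    rw [Φ_rp, hvec, mem_ball_n hr0] at h1
    intro j
    have h2 := h1 j
    rw [mem_ball_iff_norm] at h2
    have h3 : ‖((![piE E, eE E, gammaE E] j : ℝ) : ℂ) - ((p₀ j : ℝ) : ℂ)‖ < r' := h2
    rwa [← Complex.ofReal_sub, Complex.norm_real] at h3
  have hind : AlgebraicIndependent R' ![1 / piE E, eE E, gammaE E] := by
    rw [algebraicIndependent_iff]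
    intro P hP
    by_cases hc : ∃ c, P = MvPolynomial.C c
    · obtain ⟨c, hc⟩ := hc
      rw [hc, MvPolynomial.aeval_C] at hP
      have h1 : c = 0 := Subtype.ext hP
      rw [hc, h1, MvPolynomial.C_0]
    · exfalso
      have h1 := hfreq (fun w => polN R' P (J (Φ w))) (Or.inr ⟨P, rfl⟩) (by
        rintro ⟨c, hc'⟩
        exact hc (pol_const R' P (const_near hρ hc'))) 2 le_rfl
      rw [Φ_rp, hvec, J_rp, polN_real, Complex.ofReal_re] at h1
      apply freq_ne_zero h1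
      have h2 : ![(![piE E, eE E, gammaE E] 0)⁻¹, ![piE E, eE E, gammaE E] 1, ![piE E, eE E, gammaE E] 2] =
          ![1 / piE E, eE E, gammaE E] := by
        rw [one_div]
        rfl
      rw [h2]
      exact hP
  have hmem : ∀ x : ℝ, IsPeriod x → x ∈ R' := by
    intro x hx
    rw [hR']
    exact Subring.subset_closure (Or.inl hx)
  have hnot : ∀ i : Fin 3, ¬ IsPeriod (![1 / piE E, eE E, gammaE E] i) := by
    intro i hi
    have h1 := hind.transcendental i
    apply h1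
    exact isAlgebraic_algebraMap (R := R') (A := ℝ) ⟨_, hmem _ hi⟩
  rw [← hR']
  refine ⟨E, fun k hk => (hEA k hk).1, fun k hk => ⟨(hEA k hk).2.2, (hEA k hk).2.1⟩, hEK,
    (hclose 0).trans_le hrr, (hclose 1).trans_le hrr, (hclose 2).trans_le hrr,
    ⟨hnot 1, hnot 0, hnot 2⟩, hind, ?_⟩
  intro n f hf hnc b hb
  apply jn_of_nt
  have h1 := hNT n (fun j w => f j (Φ w)) (fun j => Or.inl ⟨f j, hf j, rfl⟩) (by
    rintro v hv ⟨c, hc⟩
    apply hnc v hv
    refine ⟨c, ?_⟩
    have h2 : ∀ᶠ w in 𝓝 (rp p₀), ∑ j, (v j : ℂ) * f j w = c :=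
      const_near (f := fun w => ∑ j, (v j : ℂ) * f j w) hρ hc
    have h3 : AnalyticOnNhd ℂ (fun w => ∑ j, (v j : ℂ) * f j w) (ball (rp p₀) r) := by
      apply Finset.analyticOnNhd_fun_sum
      intro j _
      exact analyticOnNhd_const.mul (hFA _ (hf j))
    have h4 := h3.eqOn_of_preconnected_of_eventuallyEq (analyticOnNhd_const (v := c))
      (convex_ball _ _).isPreconnected (mem_ball_self hr) h2
    exact fun w hw => h4 hw) b hb
  simp only [Φ_rp, hvec] at h1
  exact h1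

end Pool.Agent.Results.MP_725b61_nt.ThreeNonPeriods
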