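import Pool.Agent.H216.PN.Alg

/-!
# `π` times the real periods are the integrals of rational functions over the whole space

The real periods of Kontsevich and Zagier, in the form of the frozen statement, are finite sums of
absolutely convergent integrals of rational functions over regions given by polynomial inequalities.
We show that no regions are needed after multiplication with `π`: a real number `x` is a period if
and only if

  `π x = ∫_{ℝ ^ (n + 1)} P(z) / Q(z) dz`

for some `n` and polynomials `P`, `Q` with integer coefficients, where `Q` is positive on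
`ℝ ^ (n + 1)` and the integral converges absolutely. We denote the set of these integrals by `W`
(`WholeSpace`), so `W = π 𝒫`, where `𝒫` is the set of the real periods.

Hence the following conditions are equivalent: `1 / π` is a period; `1` is in `W`; some nonzero
algebraic number is in `W`; `W = 𝒫`. In other words, `1 / π` is not a period iff every nonzero
absolutely convergent integral of a rational function `P / Q`, `Q > 0`, over the whole space is
transcendental. The question (none of `e`, `1 / π`, `γ` is a period) says that none of `π e`, `1`,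
`π γ` is in `W`.

The proof that `π 𝒫` is contained in `W`. A period is a difference `vol {p > 0} - vol {q > 0}` of the
finite volumes of regions given by one polynomial inequality each (`exists_two`; this normal form is
also contained in helper839's `MP_2cf66e_nt`, `OneInequality`). For `0 < t < B` and `p ≠ 0` the integral
of the rational function

  `R_t(y, z) = 4 t (B - t) (y p) ^ 2 / ((y p) ^ 2 z ^ 2 + (y ^ 2 p) ^ 2 - 2 (B - 2 t) y ^ 2 p + B ^ 2) ^ 2`

over `ℝ ^ 2` is `π (1 - t / B)` if `p > 0` and `π t / B` if `p < 0`: the integral over `z` is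
`2 π t (B - t) |y p| / ((y ^ 2 p) ^ 2 - 2 (B - 2 t) y ^ 2 p + B ^ 2) ^ (3 / 2)`, which is the derivative
of an algebraic function of `w = y ^ 2 p`, and `w` runs over the half-line of the sign of `p`. With
`p = p(x)`, `B = 3 ∏ (1 + x_i ^ 2)` the function `2 R_1 - R_2` is integrable and has the integral
`π vol {p > 0}` over the whole space.

The proof that `W` is contained in `π 𝒫`. For almost all `x` the function `y ↦ P(x, y) / Q(x, y)` is
integrable and its integral is `π g(x)`, where `g(x)` is given by the coefficients of the partial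
fractions. Hence `g` is semialgebraic (by the elimination of quantifiers, from the library), and
`∫ g` is the difference of the volumes of two semialgebraic sets.

The lemmas `GAD`, `SLB`, `EXT`, `MOM`, `PF`, `PI`, `SAV`, `DEG` were proved by helper612, helper271,
helper806, helper706, helper672, helper332, helper118, helper729.
-/

set_option autoImplicit false

namespace Pool.Agent.Results.MP_725b61_nt.WholeSpaceIntegrals

open MeasureTheory

/-- The real number `x` is a period in the sense of Kontsevich and Zagier, in the form of the frozen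
statement. -/
def IsPeriod (x : ℝ) : Prop :=
  ∃ (k : ℕ) (n m : Fin k → ℕ)
    (p : ∀ j : Fin k, Fin (m j) → MvPolynomial (Fin (n j)) ℚ)
    (P Q : ∀ j : Fin k, MvPolynomial (Fin (n j)) ℚ),
    (∀ j : Fin k,
      MeasureTheory.IntegrableOn
        (fun y : Fin (n j) → ℝ => (MvPolynomial.aeval y (P j) / MvPolynomial.aeval y (Q j) : ℝ))
        {y : Fin (n j) → ℝ | ∀ i, 0 ≤ (MvPolynomial.aeval y (p j i) : ℝ)}) ∧
    x = ∑ j : Fin k,
      ∫ y in {y : Fin (n j) → ℝ | ∀ i, 0 ≤ (MvPolynomial.aeval y (p j i) : ℝ)},
        (MvPolynomial.aeval y (P j) / MvPolynomial.aeval y (Q j) : ℝ)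

/-- The real number `v` is the absolutely convergent integral of a rational function `P / Q` over the
whole space `ℝ ^ (n + 1)`, where `P` and `Q` have integer coefficients and `Q` is positive on
`ℝ ^ (n + 1)`. -/
def WholeSpace (v : ℝ) : Prop :=
  ∃ (n : ℕ) (P Q : MvPolynomial (Fin (n + 1)) ℤ),
    (∀ z : Fin (n + 1) → ℝ, 0 < (MvPolynomial.aeval z Q : ℝ)) ∧
      Integrable (fun z : Fin (n + 1) → ℝ =>
        (MvPolynomial.aeval z P / MvPolynomial.aeval z Q : ℝ)) ∧
        v = ∫ z : Fin (n + 1) → ℝ, (MvPolynomial.aeval z P / MvPolynomial.aeval z Q : ℝ)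

theorem isPeriod_iff (x : ℝ) : IsPeriod x ↔ x ∈ AddSubgroup.closure Q54.KZ.vols := by
  constructor
  · rintro ⟨k, n, m, p, P, Q, h1, rfl⟩
    exact AddSubgroup.sum_mem _ fun j _ => Q54.KZ.IsPer.mem ⟨n j, m j, p j, P j, Q j, h1 j, rfl⟩
  · intro h5
    obtain ⟨l, h6, h7⟩ := (Q54.KZ.mem_iff _).1 h5
    rw [← h7]
    choose n' k' p' P' Q' h8 h9 using fun j : Fin l.length => h6 (l.get j) (List.get_mem l j)
    refine ⟨l.length, n', k', p', P', Q', h8, ?_⟩
    rw [← Finset.sum_congr rfl fun j _ => h9 j]
    exact (Fin.sum_univ_getElem l).symm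

theorem main (x : ℝ) : IsPeriod x ↔ WholeSpace (Real.pi * x) := by
  rw [isPeriod_iff]
  exact (Pool.Agent.H216.PN.whole_iff x).symm

theorem whole_iff_div (v : ℝ) : WholeSpace v ↔ IsPeriod (v / Real.pi) := by
  rw [main, mul_div_cancel₀ v Real.pi_ne_zero]

theorem period_of_whole {v : ℝ} (h : WholeSpace v) : IsPeriod v := by
  obtain ⟨n, P, Q, h1, h2, rfl⟩ := h
  rw [isPeriod_iff]
  have h3 := Q54.KZ.integral_mem ([] : List (MvPolynomial (Fin (n + 1)) ℚ))
    (MvPolynomial.map (Int.castRingHom ℚ) P) (MvPolynomial.map (Int.castRingHom ℚ) Q)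
  have h4 : ∀ (R : MvPolynomial (Fin (n + 1)) ℤ) (z : Fin (n + 1) → ℝ),
      (MvPolynomial.aeval z (MvPolynomial.map (Int.castRingHom ℚ) R) : ℝ) =
        MvPolynomial.aeval z R := by
    intro R z
    rw [← algebraMap_int_eq, MvPolynomial.aeval_map_algebraMap ℚ z R]
  have h5 : {x : Fin (n + 1) → ℝ | ∀ p ∈ ([] : List (MvPolynomial (Fin (n + 1)) ℚ)),
      0 < (MvPolynomial.aeval x p : ℝ)} = Set.univ := by
    ext z
    simp
  rw [h5] at h3
  simp only [h4, integrableOn_univ, setIntegral_univ] at h3
  exact h3 h2

/-- **Theorem.** (1) `x` is a period iff `π x` is the integral of a rational function over the whole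
space. (2), (3), (4) Equivalent conditions for `1 / π` to be a period. (5) Equivalent form of the
question. -/
theorem result :
    (∀ x : ℝ, IsPeriod x ↔ WholeSpace (Real.pi * x)) ∧
    (IsPeriod (1 / Real.pi) ↔ WholeSpace 1) ∧
    (IsPeriod (1 / Real.pi) ↔ ∃ v : ℝ, v ≠ 0 ∧ IsAlgebraic ℚ v ∧ WholeSpace v) ∧
    (IsPeriod (1 / Real.pi) ↔ ∀ v : ℝ, WholeSpace v ↔ IsPeriod v) ∧
    ((∀ x ∈ ({Real.exp 1, 1 / Real.pi, Real.eulerMascheroniConstant} : Set ℝ), ¬ IsPeriod x) ↔
      ∀ v ∈ ({Real.pi * Real.exp 1, 1, Real.pi * Real.eulerMascheroniConstant} : Set ℝ),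
        ¬ WholeSpace v) := by
  have h1 : IsPeriod (1 / Real.pi) ↔ WholeSpace 1 := (whole_iff_div 1).symm
  have hone : IsPeriod 1 := by
    rw [isPeriod_iff]
    exact Pool.Agent.H216.PN.alg_mem isAlgebraic_one
  refine ⟨main, h1, ?_, ?_, ?_⟩
  · rw [h1]
    constructor
    · exact fun h => ⟨1, one_ne_zero, isAlgebraic_one, h⟩
    · rintro ⟨v, hv, hva, hvw⟩
      rw [← h1]
      rw [whole_iff_div, isPeriod_iff] at hvw
      rw [isPeriod_iff]
      have h2 := Pool.Agent.H216.PN.mul_mem hvw (Pool.Agent.H216.PN.alg_mem hva.inv)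
      have h3 : v / Real.pi * v⁻¹ = 1 / Real.pi := by
        field_simp
      rwa [h3] at h2
  · constructor
    · intro h v
      refine ⟨period_of_whole, fun hv => ?_⟩
      rw [whole_iff_div, isPeriod_iff]
      rw [isPeriod_iff] at h hv
      have h2 := Pool.Agent.H216.PN.mul_mem hv h
      rwa [mul_one_div] at h2
    · intro h
      rw [h1]
      exact (h 1).2 hone
  · simp only [Set.mem_insert_iff, Set.mem_singleton_iff, forall_eq_or_imp, forall_eq, h1,
      main (Real.exp 1), main Real.eulerMascheroniConstant]

end Pool.Agent.Results.MP_725b61_nt.WholeSpaceIntegrals
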